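import Pool.Agent.Lib.MP_6bc78b_nt.MS.P5.Iface
import Pool.Agent.Lib.MP_6bc78b_nt.MS.P1.EDG1
import Pool.Agent.Lib.MP_6bc78b_nt.MS.P1.GAU
import Pool.Agent.Lib.MP_6bc78b_nt.MS.P1.DDF

/-! Project MS, Part V, module MVF (helper23): mean value with the Gaussian weight. -/

set_option autoImplicit false

open Complex Filter Topology MeasureTheory

namespace Pool.Agent.Lib.MP_6bc78b_nt.MS.P5.H23

open Pool.Agent.Lib.MP_6bc78b_nt.MS Pool.Agent.Lib.MP_6bc78b_nt.MS.P1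

lemma half_cast : (((1 / 2 : ℝ)) : ℂ) = 1 / 2 := by push_cast; norm_num

lemma WW_half (T t : ℝ) : WW T (((1 / 2 : ℝ) : ℂ) + t * I) = ((MS.wt T t : ℝ) : ℂ) := by
  unfold WW MS.wt
  rw [Complex.ofReal_exp]
  congr 1
  have h : (((1 / 2 : ℝ) : ℂ) + t * I - 1 / 2 - T * I) ^ 2 = -((t : ℂ) - T) ^ 2 := by
    rw [half_cast]
    have : ((1 : ℂ) / 2 + t * I - 1 / 2 - T * I) = ((t : ℂ) - T) * I := by ring
    rw [this, mul_pow, I_sq]
    ring
  rw [h]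
  push_cast
  ring

lemma conj_cpow {k : ℕ} (hk : k ≠ 0) (t : ℝ) :
    (starRingEnd ℂ) ((k : ℂ) ^ (-(1 / 2 + t * I : ℂ))) =
      (k : ℂ)⁻¹ * (k : ℂ) ^ (((1 / 2 : ℝ) : ℂ) + t * I) := by
  have hk' : (0 : ℝ) < k := by exact_mod_cast Nat.pos_of_ne_zero hk
  have h1 : (k : ℂ) = ((k : ℝ) : ℂ) := by push_cast; rfl
  have h2 : (k : ℂ)⁻¹ = Complex.exp (-(Real.log k : ℂ)) := by
    rw [Complex.exp_neg, ← Complex.ofReal_exp, Real.exp_log hk']
    push_cast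
    rfl
  rw [h2, h1, EDG1.cpow_pos hk', EDG1.cpow_pos hk', ← Complex.exp_conj, ← Complex.exp_add]
  congr 1
  simp only [map_mul, map_neg, map_add, map_div₀, conj_ofReal, conj_I, map_one, map_ofNat]
  rw [half_cast]
  ring

lemma norm_sq_eq (b : ℕ → ℝ) (N : ℕ) (T t : ℝ) :
    (((‖∑ n ∈ Finset.Icc 1 N, (b n : ℂ) * (n : ℂ) ^ (-(1 / 2 + t * I : ℂ))‖ ^ 2 *
        MS.wt T t : ℝ)) : ℂ) =
      ∑ n ∈ Finset.Icc 1 N, ∑ k ∈ Finset.Icc 1 N, ((b n * b k / k : ℝ) : ℂ) *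
        (WW T (((1 / 2 : ℝ) : ℂ) + t * I) * (k : ℂ) ^ (((1 / 2 : ℝ) : ℂ) + t * I) *
          (n : ℂ) ^ (-(((1 / 2 : ℝ) : ℂ) + t * I))) := by
  rw [ofReal_mul, ofReal_pow, ← Complex.mul_conj', map_sum, Finset.sum_mul_sum, Finset.sum_mul]
  refine Finset.sum_congr rfl fun n _ => ?_
  rw [Finset.sum_mul]
  refine Finset.sum_congr rfl fun k hk => ?_
  have hk0 : k ≠ 0 := by
    have := (Finset.mem_Icc.1 hk).1
    omega
  rw [map_mul, conj_ofReal, conj_cpow hk0, WW_half, half_cast]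
  push_cast
  ring

lemma integrable_term {T : ℝ} (hD : 0 < DD T) {n k : ℕ} (hn : n ≠ 0) (hk : k ≠ 0) :
    Integrable fun t : ℝ => WW T (((1 / 2 : ℝ) : ℂ) + t * I) *
      (k : ℂ) ^ (((1 / 2 : ℝ) : ℂ) + t * I) * (n : ℂ) ^ (-(((1 / 2 : ℝ) : ℂ) + t * I)) := by
  have hn' : (0 : ℝ) < n := by exact_mod_cast Nat.pos_of_ne_zero hn
  have h1 := EDG1.integrable_W GAU.gau (c := 1 / 2) hD hk
  have hc : Continuous fun t : ℝ => (n : ℂ) ^ (-(((1 / 2 : ℝ) : ℂ) + t * I)) :=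
    Continuous.const_cpow (by fun_prop) (Or.inl (by exact_mod_cast hn))
  refine (h1.norm.mul_const ((n : ℝ) ^ (-(1 / 2) : ℝ))).mono'
    (h1.aestronglyMeasurable.mul hc.aestronglyMeasurable) (Filter.Eventually.of_forall fun t => ?_)
  have h2 : (n : ℂ) = ((n : ℝ) : ℂ) := by push_cast; rfl
  have h3 : ‖(n : ℂ) ^ (-(((1 / 2 : ℝ) : ℂ) + t * I))‖ = (n : ℝ) ^ (-(1 / 2) : ℝ) := by
    rw [h2, Complex.norm_cpow_eq_rpow_re_of_pos hn']
    simp
  rw [norm_mul, h3]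

/-- the mean value as a double sum of kernels. -/
lemma mean_eq {T : ℝ} (hD : 0 < DD T) (b : ℕ → ℝ) (N : ℕ) :
    (((1 / (2 * Real.pi)) * ∫ t : ℝ, ‖∑ n ∈ Finset.Icc 1 N,
      (b n : ℂ) * (n : ℂ) ^ (-(1 / 2 + t * I : ℂ))‖ ^ 2 * MS.wt T t : ℝ) : ℂ) =
      ∑ n ∈ Finset.Icc 1 N, ∑ k ∈ Finset.Icc 1 N, ((b n * b k / k : ℝ) : ℂ) *
        ((cG T : ℂ) * Complex.exp (-(1 / 2 + T * I) * Real.log ((n : ℝ) / k) -
        (DD T) ^ 2 * (Real.log ((n : ℝ) / k)) ^ 2 / 4)) := by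
  have hcast : ((∫ t : ℝ, ‖∑ n ∈ Finset.Icc 1 N,
      (b n : ℂ) * (n : ℂ) ^ (-(1 / 2 + t * I : ℂ))‖ ^ 2 * MS.wt T t : ℝ) : ℂ) =
      ∫ t : ℝ, ((‖∑ n ∈ Finset.Icc 1 N,
      (b n : ℂ) * (n : ℂ) ^ (-(1 / 2 + t * I : ℂ))‖ ^ 2 * MS.wt T t : ℝ) : ℂ) :=
    (integral_ofReal (𝕜 := ℂ)).symm
  rw [ofReal_mul, hcast]
  have h1 : ∀ t : ℝ, ((((‖∑ n ∈ Finset.Icc 1 N, (b n : ℂ) * (n : ℂ) ^ (-(1 / 2 + t * I : ℂ))‖ ^ 2 *
        MS.wt T t : ℝ)) : ℂ)) = _ := fun t => norm_sq_eq b N T t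
  simp_rw [h1]
  rw [integral_finsetSum _ (fun n hn => ?_)]
  · rw [Finset.mul_sum]
    refine Finset.sum_congr rfl fun n hn => ?_
    have hn0 : n ≠ 0 := by
      have := (Finset.mem_Icc.1 hn).1
      omega
    rw [integral_finsetSum _ (fun k hk => ?_), Finset.mul_sum]
    · refine Finset.sum_congr rfl fun k hk => ?_
      have hk0 : k ≠ 0 := by
        have := (Finset.mem_Icc.1 hk).1
        omega
      rw [integral_const_mul, ← EDG1.VI_quot GAU.gau (c := 1 / 2) hD hn0 hk0]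
      unfold VI
      push_cast
      ring
    · have hk0 : k ≠ 0 := by
        have := (Finset.mem_Icc.1 hk).1
        omega
      exact (integrable_term hD hn0 hk0).const_mul _
  · have hn0 : n ≠ 0 := by
      have := (Finset.mem_Icc.1 hn).1
      omega
    refine integrable_finsetSum _ fun k hk => ?_
    have hk0 : k ≠ 0 := by
      have := (Finset.mem_Icc.1 hk).1
      omega
    exact (integrable_term hD hn0 hk0).const_mul _

/-- the size of one term of the double sum. -/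
lemma term_le {T A A' δ : ℝ} (hT : 1 ≤ T) (hcG : 0 < cG T) (hcT : cG T ≤ T)
    (hexp : Real.exp (-(DD T ^ 2 * T ^ (-(2 * (1 - δ))) / 64)) ≤ T ^ (-A'))
    {b : ℕ → ℝ} (hb : ∀ n, 0 ≤ b n ∧ b n ≤ T ^ A) {n k : ℕ}
    (hn : n ∈ Finset.Icc 1 ⌊T ^ (1 - δ)⌋₊) (hk : k ∈ Finset.Icc 1 ⌊T ^ (1 - δ)⌋₊) :
    ‖((b n * b k / k : ℝ) : ℂ) * ((cG T : ℂ) * Complex.exp (-(1 / 2 + T * I) *
      Real.log ((n : ℝ) / k) - (DD T) ^ 2 * (Real.log ((n : ℝ) / k)) ^ 2 / 4))‖ ≤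
      (if n = k then cG T * (b n ^ 2 / (n : ℝ)) else 0) + T ^ A * T ^ A * T * T ^ (-A') := by
  have hT0 : 0 < T := by linarith
  rw [Finset.mem_Icc] at hn hk
  have hn0 : n ≠ 0 := by omega
  have hk0 : k ≠ 0 := by omega
  have hn' : (1 : ℝ) ≤ n := by exact_mod_cast hn.1
  have hk' : (1 : ℝ) ≤ k := by exact_mod_cast hk.1
  have hpos : 0 ≤ T ^ A * T ^ A * T * T ^ (-A') := by positivity
  have hbn := hb n
  have hbk := hb k
  have hq : 0 ≤ b n * b k / k := by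
    have := mul_nonneg hbn.1 hbk.1
    positivity
  rw [norm_mul, Complex.norm_real, Real.norm_eq_abs, abs_of_nonneg hq, EDG1.norm_kernel hcG]
  by_cases h : n = k
  · rw [if_pos h, h]
    have h1 : Real.log ((k : ℝ) / k) = 0 := by rw [div_self (by linarith), Real.log_one]
    rw [h1]
    have h2 : Real.exp (-(1 / 2) * 0 - DD T ^ 2 * 0 ^ 2 / 4) = 1 := by norm_num
    rw [h2]
    have h3 : b k * b k / k * (cG T * 1) = cG T * (b k ^ 2 / (k : ℝ)) := by ring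
    rw [h3]
    linarith
  · rw [if_neg h, zero_add]
    set x := Real.log ((n : ℝ) / k) with hx
    have hlog := EDG1.log_quot hn0 hk0 h
    rw [← hx] at hlog
    have hkT : (k : ℝ) ≤ T ^ (1 - δ) :=
      (Nat.le_floor_iff (by positivity)).1 hk.2
    have hTd : 0 < T ^ (1 - δ) := by positivity
    have h1 : 1 / (2 * T ^ (1 - δ)) ≤ |x| :=
      (one_div_le_one_div_of_le (by linarith) (by linarith)).trans hlog
    have h2 : (1 / (2 * T ^ (1 - δ))) ^ 2 ≤ x ^ 2 := by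
      rw [← sq_abs x]
      exact pow_le_pow_left₀ (by positivity) h1 2
    have h3 : T ^ (-(2 * (1 - δ))) = (1 / T ^ (1 - δ)) ^ 2 := by
      rw [Real.rpow_neg hT0.le, one_div, inv_pow, ← Real.rpow_natCast, ← Real.rpow_mul hT0.le]
      congr 2
      push_cast
      ring
    have h4 : DD T ^ 2 * T ^ (-(2 * (1 - δ))) / 64 ≤ DD T ^ 2 * x ^ 2 / 4 := by
      rw [h3]
      have h5 : (1 / (2 * T ^ (1 - δ))) ^ 2 = (1 / T ^ (1 - δ)) ^ 2 / 4 := by
        field_simp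
        norm_num
      rw [h5] at h2
      have h6 : 0 ≤ DD T ^ 2 := sq_nonneg _
      have h7 : 0 ≤ (1 / T ^ (1 - δ)) ^ 2 := sq_nonneg _
      nlinarith
    -- `exp (-x/2) / k ≤ 1`
    have h8 : Real.exp (-(1 / 2) * x - DD T ^ 2 * x ^ 2 / 4) ≤ k * T ^ (-A') := by
      have e1 : Real.exp (-(1 / 2) * x) ≤ k := by
        have e2 : -(1 / 2) * x ≤ Real.log k := by
          rw [hx, Real.log_div (by linarith) (by linarith)]
          have e3 : 0 ≤ Real.log n := Real.log_nonneg hn'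
          have e4 : 0 ≤ Real.log k := Real.log_nonneg hk'
          linarith
        calc Real.exp (-(1 / 2) * x) ≤ Real.exp (Real.log k) := Real.exp_le_exp.2 e2
          _ = k := Real.exp_log (by linarith)
      have e5 : Real.exp (-(DD T ^ 2 * x ^ 2 / 4)) ≤ T ^ (-A') :=
        (Real.exp_le_exp.2 (neg_le_neg h4)).trans hexp
      rw [sub_eq_add_neg, Real.exp_add]
      exact mul_le_mul e1 e5 (Real.exp_pos _).le (by linarith)
    calc b n * b k / k * (cG T * Real.exp (-(1 / 2) * x - DD T ^ 2 * x ^ 2 / 4))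
        ≤ b n * b k / k * (T * (k * T ^ (-A'))) := by
          apply mul_le_mul_of_nonneg_left _ hq
          exact mul_le_mul hcT h8 (Real.exp_pos _).le hT0.le
      _ = b n * b k * T * T ^ (-A') := by
          have : (k : ℝ) ≠ 0 := by linarith
          field_simp
      _ ≤ T ^ A * T ^ A * T * T ^ (-A') := by
          have e1 : b n * b k ≤ T ^ A * T ^ A :=
            mul_le_mul hbn.2 hbk.2 hbk.1 (by positivity)
          gcongr

/-- MVF. -/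
theorem mvf : MvfStatement := by
  intro δ A hδ
  obtain ⟨-, -, h3, h4⟩ := DDF.ddf
  have hev := (h3.and (h4 (1 - δ) (2 * A + 4) (by linarith))).and (eventually_ge_atTop (3 : ℝ))
  obtain ⟨T0, hT0⟩ := Filter.eventually_atTop.1 hev
  refine ⟨max 3 T0, le_max_left _ _, ?_⟩
  intro T hT b hb
  obtain ⟨⟨⟨-, hD1, hcG, hcT⟩, hexp⟩, hT3⟩ := hT0 T ((le_max_right _ _).trans hT)
  have hTpos : 0 < T := by linarith
  have hD : 0 < DD T := by linarith
  set N := ⌊T ^ (1 - δ)⌋₊ with hN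
  have hNT : (N : ℝ) ≤ T := by
    have h1 : (N : ℝ) ≤ T ^ (1 - δ) := Nat.floor_le (by positivity)
    have h2 : T ^ (1 - δ) ≤ T ^ (1 : ℝ) :=
      Real.rpow_le_rpow_of_exponent_le (by linarith) (by linarith)
    rw [Real.rpow_one] at h2
    linarith
  have hmean := mean_eq hD b N
  have hle : (1 / (2 * Real.pi)) * ∫ t : ℝ, ‖∑ n ∈ Finset.Icc 1 N,
      (b n : ℂ) * (n : ℂ) ^ (-(1 / 2 + t * I : ℂ))‖ ^ 2 * MS.wt T t ≤
      ‖(((1 / (2 * Real.pi)) * ∫ t : ℝ, ‖∑ n ∈ Finset.Icc 1 N,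
      (b n : ℂ) * (n : ℂ) ^ (-(1 / 2 + t * I : ℂ))‖ ^ 2 * MS.wt T t : ℝ) : ℂ)‖ := by
    rw [Complex.norm_real]
    exact le_abs_self _
  refine hle.trans ?_
  rw [hmean]
  refine (norm_sum_le _ _).trans ?_
  have hstep : ∀ n ∈ Finset.Icc 1 N, ‖∑ k ∈ Finset.Icc 1 N, ((b n * b k / k : ℝ) : ℂ) *
        ((cG T : ℂ) * Complex.exp (-(1 / 2 + T * I) * Real.log ((n : ℝ) / k) -
        (DD T) ^ 2 * (Real.log ((n : ℝ) / k)) ^ 2 / 4))‖ ≤
      cG T * (b n ^ 2 / (n : ℝ)) + N * (T ^ A * T ^ A * T * T ^ (-(2 * A + 4))) := by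
    intro n hn
    refine (norm_sum_le _ _).trans ?_
    refine (Finset.sum_le_sum fun k hk =>
      term_le (A' := 2 * A + 4) (by linarith) hcG hcT hexp hb hn hk).trans ?_
    rw [Finset.sum_add_distrib, Finset.sum_ite_eq, if_pos hn, Finset.sum_const, Nat.card_Icc,
      nsmul_eq_mul, Nat.add_sub_cancel]
  refine (Finset.sum_le_sum hstep).trans ?_
  rw [Finset.sum_add_distrib, Finset.sum_const, Nat.card_Icc, nsmul_eq_mul, ← Finset.mul_sum]
  simp only [Nat.add_sub_cancel]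
  have hpow : T ^ A * T ^ A * T * T ^ (-(2 * A + 4)) * T ^ 2 = 1 / T := by
    have e1 : T ^ A * T ^ A * T * T ^ (-(2 * A + 4)) * T ^ 2 = T ^ (-1 : ℝ) := by
      have e2 : (T : ℝ) = T ^ (1 : ℝ) := (Real.rpow_one T).symm
      have e3 : T ^ 2 = T ^ (2 : ℝ) := by
        rw [← Real.rpow_natCast]; norm_num
      rw [e3]
      nth_rewrite 3 [e2]
      rw [← Real.rpow_add hTpos, ← Real.rpow_add hTpos, ← Real.rpow_add hTpos,
        ← Real.rpow_add hTpos]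
      congr 1
      ring
    rw [e1, Real.rpow_neg_one, one_div]
  have hN2 : (N : ℝ) * (N * (T ^ A * T ^ A * T * T ^ (-(2 * A + 4)))) ≤ 1 / T := by
    rw [← hpow]
    have e1 : 0 ≤ T ^ A * T ^ A * T * T ^ (-(2 * A + 4)) := by positivity
    have e2 : (N : ℝ) * N ≤ T ^ 2 := by
      have : (0 : ℝ) ≤ N := Nat.cast_nonneg N
      nlinarith
    nlinarith
  linarith

end Pool.Agent.Lib.MP_6bc78b_nt.MS.P5.H23
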